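import Pool.Agent.K9h36.LG.Str

/-!
# Lang's strong conjecture on rational points is a question on smooth hypersurfaces over `ℚ`

For every `r ≥ 1` and every infinite set of exponents `D` the following are equivalent:

* (Q1 in dimension at least `r`) for all number fields `k` and all projective varieties `X` of general
  type over `k`, of dimension at least `r` and with arbitrary singularities, there is a form `R` over `k`,
  not zero on `X`, such that for all number fields `K` over `k` only finitely many points of `X(K)` are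
  outside of `R = 0`;
* for all smooth hypersurfaces `Y : ∑ t, Q_t(y) (y_0 + t y_1 + ⋯ + t^N y_N)^D = 0` in `P^N` over `ℚ`, with
  rational quadratic forms `Q_t`, `t < N (2 N + 1)`, and `D ≥ D₁(N)`, the smallest closed set `E(Y)` in `Y`
  such that `(Y ∖ E(Y))(K)` is finite for all number fields `K` has no irreducible component of
  dimension at least `r` which is of general type;
* for all these hypersurfaces `Y` there is a closed set `Z` in `Y` such that `(Y ∖ Z)(K)` is finite for all
  number fields `K` and `Z` has no irreducible component of dimension at least `r` which is of general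
  type.

The case `r = 1` is Q1 for all projective varieties of positive dimension, the case `r = 2` is the
part which is left by Faltings' theorem.

The proof uses smooth hypersurfaces through `v(X')`, where `X'` is the union of the conjugates of `X` and
`v` a Veronese embedding, such that all closed subvarieties of positive dimension which are not
contained in `v(X')` are of general type.
-/

set_option autoImplicit false

namespace Pool.Agent.Results.MP_7ede32_ag.SmoothHypersurfacesSuffice

open MvPolynomial
open Pool.Agent.W602.GT (GeneralType)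
open Pool.Agent.N254.SQ (IsForm Component GenericPoint SmoothOver powerFormOver Gen FiniteOff)
open scoped LinearAlgebra.Projectivization

/-- Q1 for all projective varieties of dimension at least `r` over all number fields: if the
projective variety `V(S)` over the number field `k` in `ℂ`, of dimension `w ≥ r`, with function field `L`
over `ℂ` and generic point `y`, is of general type, then there is a form `R` over `k` which does not
vanish on it, such that for all number fields `K` over `k` only finitely many `K`-rational points of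
`V(S)` are outside of `R = 0`. -/
def StrongLang (r : ℕ) : Prop :=
  ∀ (k : Type) [Field k] [NumberField k] [Algebra k ℂ] (n : ℕ)
    (S : Set (MvPolynomial (Fin (n + 1)) k)) (L : Type) [Field L] [Algebra ℂ L] (w : ℕ)
    (y : Fin (n + 1) → L), (∀ p ∈ S, ∃ e, p.IsHomogeneous e) → r ≤ w → GenericPoint S L w y →
    GeneralType ℂ L w → ∃ R : MvPolynomial (Fin (n + 1)) k, (∃ e, R.IsHomogeneous e) ∧
      aeval y (map (algebraMap k ℂ) R) ≠ 0 ∧
      ∀ (K : Type) [Field K] [NumberField K] [Algebra k K],
        {P : ℙ K (Fin (n + 1) → K) | (∀ p ∈ S, aeval P.rep p = 0) ∧ aeval P.rep R ≠ 0}.Finite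

/-- for the hypersurface `Y : A = 0` over `ℚ`, the smallest closed set outside of which `Y` has only
finitely many points over every number field has no irreducible component of dimension at least
`r` which is of general type -/
def NoGeneralType (r : ℕ) {N : ℕ} (A : MvPolynomial (Fin (N + 1)) ℚ) : Prop :=
  ∀ (L : Type) [Field L] [Algebra ℂ L] (w : ℕ) (y : Fin (N + 1) → L), r ≤ w → Gen L w y →
    Component (FiniteOff {map (algebraMap ℚ ℂ) A}) y → ¬ GeneralType ℂ L w

/-- for the hypersurface `Y : A = 0` over `ℚ` there is a closed set `Z`, given by a set `T` of forms in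
`Y`, outside of which `Y` has only finitely many points over every number field, and which has no
irreducible component of dimension at least `r` which is of general type -/
def SomeClosedSet (r : ℕ) {N : ℕ} (A : MvPolynomial (Fin (N + 1)) ℚ) : Prop :=
  ∃ T : Set (MvPolynomial (Fin (N + 1)) ℂ),
    (∀ G ∈ T, IsForm G ∧ FiniteOff {map (algebraMap ℚ ℂ) A} G) ∧
    ∀ (L : Type) [Field L] [Algebra ℂ L] (w : ℕ) (y : Fin (N + 1) → L), r ≤ w → Gen L w y →
      Component (fun G => ∀ x : Fin (N + 1) → ℂ, x ≠ 0 → eval x (map (algebraMap ℚ ℂ) A) = 0 →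
        (∀ p ∈ T, eval x p = 0) → eval x G = 0) y → ¬ GeneralType ℂ L w

section proof

open Pool.Agent.K9h36.LG

theorem one_two {r : ℕ} (h : StrongLang r) {N : ℕ} (A : MvPolynomial (Fin (N + 1)) ℚ) :
    NoGeneralType r A := by
  intro L _ _ w y hr hy hcomp hGT
  exact strong_forth (map (algebraMap ℚ ℂ) A) hy hcomp fun k _ _ _ S hS hgen =>
    h k N S L w y hS hr hgen hGT

theorem two_three {r : ℕ} {N : ℕ} {A : MvPolynomial (Fin (N + 1)) ℚ} (h : NoGeneralType r A) :
    SomeClosedSet r A := by
  refine ⟨{G | IsForm G ∧ FiniteOff {map (algebraMap ℚ ℂ) A} G}, fun G hG => hG, ?_⟩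
  intro L _ _ w y hr hy hcomp
  apply h L w y hr hy
  obtain ⟨h1, H, hH, hHy, h2⟩ := hcomp
  refine ⟨fun G hG hGf => h1 G hG fun x _ _ hxT => hxT G ⟨hG, hGf⟩, H, hH, hHy, fun G hG hGy => ?_⟩
  exact closed_fin (fun G hG => hG.2) (h2 G hG hGy)

end proof

theorem result : ∃ D₁ : ℕ → ℕ, ∀ (r : ℕ) (E : Set ℕ), 1 ≤ r → E.Infinite →
    (StrongLang r ↔
      ∀ (N D : ℕ) (Q : Fin (N * (2 * N + 1)) → MvPolynomial (Fin (N + 1)) ℚ), D ∈ E → D₁ N ≤ D →
        (∀ t, (Q t).IsHomogeneous 2) → SmoothOver (powerFormOver D Q) →
        NoGeneralType r (powerFormOver D Q)) ∧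
    (StrongLang r ↔
      ∀ (N D : ℕ) (Q : Fin (N * (2 * N + 1)) → MvPolynomial (Fin (N + 1)) ℚ), D ∈ E → D₁ N ≤ D →
        (∀ t, (Q t).IsHomogeneous 2) → SmoothOver (powerFormOver D Q) →
        SomeClosedSet r (powerFormOver D Q)) := by
  obtain ⟨D₁, H⟩ := Pool.Agent.K9h36.LG.t_hyp
  refine ⟨D₁, fun r E hr hE => ?_⟩
  have back : (∀ (N D : ℕ) (Q : Fin (N * (2 * N + 1)) → MvPolynomial (Fin (N + 1)) ℚ), D ∈ E →
      D₁ N ≤ D → (∀ t, (Q t).IsHomogeneous 2) → SmoothOver (powerFormOver D Q) →
      SomeClosedSet r (powerFormOver D Q)) → StrongLang r := by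
    intro h k _ _ _ n S L _ _ w y hS hrw hy hGT
    obtain ⟨R, hR1, hR2, hR3⟩ := Pool.Agent.K9h36.LG.strong_back hS (hr.trans hrw) hrw hy hGT H E hE
      (fun N D Q hD hD1 hQ hsm => by
        obtain ⟨T, hT1, hT2⟩ := h N D Q hD hD1 hQ hsm
        exact ⟨T, fun G hG => (hT1 G hG).2, hT2⟩)
    exact ⟨R, hR1, hR2, fun K _ _ _ => Pool.Agent.K9h36.LG.to_abstract hR3 K⟩
  exact ⟨⟨fun h N D Q _ _ _ _ => one_two h _, fun h => back fun N D Q hD hD1 hQ hsm =>
      two_three (h N D Q hD hD1 hQ hsm)⟩,
    ⟨fun h N D Q _ _ _ _ => two_three (one_two h _), back⟩⟩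

end Pool.Agent.Results.MP_7ede32_ag.SmoothHypersurfacesSuffice
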