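import Mathlib
import Pool.Agent.K9h15.TowH
import Pool.Agent.K9h15.Cv.Twr

/-!
# Sparse rational points on towers of families with nilpotent covers, of any relative dimension

`X` is an integral projective variety over the number field `k`, given by its function field `K` and the
homogeneous coordinates `x` of its generic point (`coords k x = ⊤`: the ratios of the coordinates generate
`K`). Lang's strong conjecture asks, for `X` of general type, for a proper closed subset `Z` such that
`(X \ Z)(L)` is finite for all finite extensions `L` of `k`. The theorem gives, for towers of families of
varieties of any dimension with many nilpotent covers, a proper closed subset `Z = {R = 0}`, the same for all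
`L`, such that the points of `(X \ Z)(L)` are sparse: at most `C T ^ ε` of them have height at most `T`.

The hypothesis. `E` is generated over `K` by elements algebraic over `k` (a constant extension of `K`). The
finite subsets `T 0, ..., T (n - 1)` of `E` give a tower of fields, with `E` algebraic over the last one, and
the `i`-th step of the tower comes from the morphism `Spec k[T i] → Spec k[S i]` of affine varieties (with total
space `Spec k[T i]`), where the elements of `S i` are algebraic over the field generated by the previous `T j`:
up to finite covers, each variety of the tower is a pull-back of the family `Spec k[T i] → Spec k[S i]` to the
previous variety. `NilFibres k S T` is a condition on all positive dimensional subvarieties `W`, over all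
fields `F`, of the fibres of this family. The function field of `W` is `E' = F(f(T))`, where
`f : k[T] → E'` is a homomorphism with `f(S)` contained in `F`, and the condition `NilCovers F` is that `W` has
nilpotent covers of unbounded geometric degree: for all `N` there is a finite Galois extension `M` of `E'`
with a nilpotent Galois group, with trivial inertia groups for all valuation rings of `M` which contain `F` (the
cover is étale over the normal proper models of `W`), and of degree at least `N` over the subfield
generated by `E'` and the constants of `M`, that is, the elements algebraic over `F`.

Examples. Let `A → B` be an abelian scheme over an affine variety over `k`, all `l`-torsion points of which are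
rational over `B` for a prime `l`, and `Y → A` a quasi-finite morphism from an affine variety `Y`. For a
positive dimensional subvariety `W` of a fibre of `Y → B` take for `M` the fields generated by the points of
the pull-backs of the generic point of `W` by the multiplications by `l ^ n`: their Galois groups are `l`-groups,
and their geometric degrees tend to infinity. So the theorem holds for such families of varieties, for instance
for families of curves of genus at least one or of subvarieties of abelian varieties with a level structure, and
for towers of pull-backs of such families. In general the fundamental groups of the fibres have small images in
that of `X`, since there may be bad fibres, so these are not varieties with a large fundamental group.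

The proof bounds the points on the fibres, uniformly for all fibres (`Pool/Agent/K9h15/Cv/`): for the fibres over
all points of the base, and their subvarieties of all dimensions and degrees, by a Noetherian induction in which
the coefficients of the equations of bounded degree found by the determinant method on the covers are new
parameters of the family. The number of twists of the covers which are needed over `L` is bounded by Kummer
theory, for all fibres together, since the groups are nilpotent.
-/

set_option autoImplicit false

namespace Pool.Agent.Results.MP_7ede32_ag.SparsePointsNilpotentTowers

open Pool.Agent.W602.GT (coords val IsForm)
open Pool.Agent.K9h15.Tow (Alg good_of_const)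
open Pool.Agent.K9h15.Pts (pts count)
open Pool.Agent.K9h15.Cv (NilFibres good_tower)

/-- Sparsity of the rational points of towers of families of varieties with nilpotent covers off one
closed subset for all number fields. -/
theorem result (k : Type) [Field k] [NumberField k] (K : Type) [Field K] [Algebra k K] (M : ℕ)
    (x : Fin (M + 1) → K) (hx : x ≠ 0) (hgen : coords k x = ⊤)
    (E : Type) [Field E] [Algebra k E] [Algebra K E] [IsScalarTower k K E]
    (hE : IntermediateField.adjoin K {z : E | IsAlgebraic k z} = ⊤)
    (n : ℕ) (S T : Fin n → Finset E)
    (hS : ∀ i, ∀ s ∈ S i, Alg k (⋃ j ∈ {j | j < i}, (T j : Set E)) s)
    (hT : ∀ i, NilFibres k (S i) (T i))
    (halg : ∀ z : E, Alg k (⋃ i, (T i : Set E)) z) :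
    ∃ R : MvPolynomial (Fin (M + 1)) k, IsForm R ∧ val x R ≠ 0 ∧
      ∀ (L : Type) [Field L] [NumberField L] [Algebra k L] (ε : ℝ), 0 < ε →
        ∃ C : ℝ, ∀ T : ℝ, 1 ≤ T →
          (pts x R L T).Finite ∧ ((pts x R L T).ncard : ℝ) ≤ C * T ^ ε := by
  have h1 := good_tower S T hS hT
  have h2 : Pool.Agent.K9h15.Tow.Good k (Set.univ : Set E) := h1.mono fun z _ => halg z
  exact count hx hgen (good_of_const E hE h2)

end Pool.Agent.Results.MP_7ede32_ag.SparsePointsNilpotentTowers
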