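import Mathlib
import Pool.Agent.K9h15.TowH
import Pool.Agent.K9h15.Cst

/-!
# Sparse rational points on iterated fibrations, with one closed subset for all number fields

`X` is an integral projective variety over the number field `k`, given by its function field `K` and the
homogeneous coordinates `x` of its generic point (`coords k x = ⊤`: the ratios of the coordinates generate
`K`). Lang's strong conjecture asks, for `X` of general type, for a proper closed subset `Z` such that
`(X \ Z)(L)` is finite for all finite extensions `L` of `k`. The theorem gives, for a class of iterated
fibrations in curves of positive genus, a proper closed subset `Z = {R = 0}`, the same for all `L`, such that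
the points of `(X \ Z)(L)` are sparse: at most `C T ^ ε` of them have height at most `T`, for each `ε > 0`.

The hypothesis. `E` is generated over `K` by elements algebraic over `k`: a constant extension, for instance
the function field of `X` over the algebraic closure of `k`. The elements `t 0, ..., t (n - 1)` of `E` give a
tower of fields `F 0 ⊆ F 1 ⊆ ... ⊆ F n = E`, where `F i` consists of the elements algebraic over
`k(t 0, ..., t (i - 1))`: geometrically a tower of fibrations in curves. `GenusOne k S t`, for the field `F` of
the elements algebraic over `k(S)`: there is a separable polynomial `g` of degree three or four over `F`, the
roots of which (with infinity, if the degree is three) are split in two pairs over `F`, that is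
`g = c (A ^ 2 - m B ^ 2)`, and the divisor of `g(t)` is even over `F`, that is `g(t)` is a unit times a square in
all valuation rings of `E` which contain `F`. In other words the double cover `E(√g(t))` of `E` is unramified over
`F`, and it contains the function field `F(t, √g(t))` of a curve of genus one whose Jacobian has a point of order
two over `F`. For example `t` may satisfy `y ^ 2 = g(t) r(t)` with `y` in `E` and a polynomial `r` of even degree
prime to `g` (if `g` has degree four, of any degree): families of hyperelliptic curves of any genus with four
Weierstrass points split in two pairs, such as the families of curves of genus at least one with all
Weierstrass points rational, or of elliptic curves with a point of order two. For one curve over `k` itself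
(`i = 0`) the splitting over `F` is no condition, since `F 0` may be algebraically closed.

The fibres vary with the point of the base, so the bound for the points on the fibres must be uniform. It is
the theorem of Bombieri and Zannier, and Naccarato, over the rational numbers; here it is proved over all
number fields, for all the covers together, by a two-descent and the determinant method on the pull-backs of
the fibres by the multiplications by `2 ^ j` (`Pool/Agent/K9h15/`). Most of these varieties are not covered by the
results for varieties with a large fundamental group: the singular fibres of a fibration may be rational
curves, and then the fundamental groups of the fibres have small images in that of `X`.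
-/

set_option autoImplicit false

namespace Pool.Agent.Results.MP_7ede32_ag.SparsePointsOnTowers

open Pool.Agent.W602.GT (coords val IsForm)
open Pool.Agent.K9h15.Tow (Alg EvenOver GenusOne good_towerE good_of_const)
open Pool.Agent.K9h15.Pts (pts count)

/-- Sparsity of the rational points of iterated fibrations in curves of positive genus off one closed subset
for all number fields. -/
theorem result (k : Type) [Field k] [NumberField k] (K : Type) [Field K] [Algebra k K] (M : ℕ)
    (x : Fin (M + 1) → K) (hx : x ≠ 0) (hgen : coords k x = ⊤)
    (E : Type) [Field E] [Algebra k E] [Algebra K E] [IsScalarTower k K E]
    (hE : IntermediateField.adjoin K {z : E | IsAlgebraic k z} = ⊤)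
    (n : ℕ) (t : Fin n → E) (ht : ∀ i : Fin n, GenusOne k (t '' {j | j < i}) (t i))
    (halg : ∀ z : E, Alg k (Set.range t) z) :
    ∃ R : MvPolynomial (Fin (M + 1)) k, IsForm R ∧ val x R ≠ 0 ∧
      ∀ (L : Type) [Field L] [NumberField L] [Algebra k L] (ε : ℝ), 0 < ε →
        ∃ C : ℝ, ∀ T : ℝ, 1 ≤ T →
          (pts x R L T).Finite ∧ ((pts x R L T).ncard : ℝ) ≤ C * T ^ ε := by
  have h1 := good_towerE t ht
  have h2 : Pool.Agent.K9h15.Tow.Good k (Set.univ : Set E) := h1.mono fun z _ => halg z
  exact count hx hgen (good_of_const E hE h2)

end Pool.Agent.Results.MP_7ede32_ag.SparsePointsOnTowers
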